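import Pool.Agent.Y890.MV.Main

/-!
Relations between the periods of the fibres of a family over a base of any dimension: outside few hypersurfaces of the
base, of small degree, they are specializations of functional relations over the field of algebraic numbers.
-/

namespace Pool.Agent.Results.MP_5591bc_ag.AnyDimensionalBases

open Filter Pool.Agent Pool.Agent.Y890.MV

/-- Let `U` be a connected open set in `ℂ ^ X` (`X` finite, nonempty) and `f` a finite family of analytic functions on
`U` such that `ℂ(x)` is algebraically closed in `ℂ(x, f)`. There is `ω → ∞` such that for all large `T`, all number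
fields `K` of degree at most `ω T` and all systems `Ξ` of `ω T` relations, of partial degrees at most `ω T` in the
functions, whose coefficients are arbitrary complex linear combinations of `ω T` unknowns: the points `s` of `K ^ X`
with coordinates of height at most `T`, of norm at most `ω T` and at distance at least `1 / ω T` from the complement
of `U`, at which some solution `c` of the system for the values `f y (s)`, in integers of `K` all of whose conjugates
are at most `T ^ ω T`, is not of the form `G (s)` for polynomials `G` with algebraic coefficients which solve the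
system identically on `U`, lie on at most `T ^ (1 / ω T)` hypersurfaces of degree at most `T ^ (1 / ω T)`; and there
are at most `T ^ (1 / ω T) * N ^ (|X| - 1)` of them, `N` being the number of elements of `K` of height at most `T`. -/
theorem result {X σ : Type} [Fintype X] [DecidableEq X] [Nonempty X] [Fintype σ] [DecidableEq σ]
    (U : Set (X → ℂ)) (f : σ → (X → ℂ) → ℂ) (hU : IsPreconnected U) (hUo : IsOpen U) (hne : U.Nonempty)
    (hf : ∀ i, AnalyticOnNhd ℂ (f i) U) (hreg : RegularM U f) :
    ∃ (ω : ℝ → ℕ) (T₀ : ℝ), Tendsto ω atTop atTop ∧ Monotone ω ∧ ∀ T, T₀ ≤ T → 0 < ω T ∧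
      ∀ (K : Type) [Field K] [NumberField K], Module.finrank ℚ K ≤ ω T → ∀ (io : K →+* ℂ)
        (Ξ : Fin (ω T) → (σ → Fin (ω T + 1)) → Fin (ω T) → ℂ),
        Y124.Cov ⌊T ^ ((ω T : ℝ)⁻¹)⌋₊ ⌊T ^ ((ω T : ℝ)⁻¹)⌋₊
          ((fun (s : X → K) j => io (s j)) '' ExcM U f (InnerM U (ω T)) K io Ξ (ω T) T) ∧
        (ExcM U f (InnerM U (ω T)) K io Ξ (ω T) T).Finite ∧
        ((ExcM U f (InnerM U (ω T)) K io Ξ (ω T) T).ncard : ℝ) ≤
          T ^ ((ω T : ℝ)⁻¹) * ({x : K | Y120.HtLe K T x}.ncard : ℝ) ^ (Fintype.card X - 1) :=
  excM_omega hU hUo hne hf hreg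

end Pool.Agent.Results.MP_5591bc_ag.AnyDimensionalBases
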