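import Pool.Agent.Y921.DB.Fin

/-!
# Periods of almost all products of cyclic covers of the line

Let `C_z`, `z ∈ ℂ`, be the family of curves

  `y ^ N = (x - z) ^ e₀ ∏_j (x - a_j) ^ (e_j)`,

where `a_1, …, a_n` are distinct nonzero algebraic numbers. For `N = 2` and exponents `1` it consists of hyperelliptic
curves. If `N` is prime to `e₀`, to all `e_j` and to `e₀ + ∑ e_j`, the forms `x ^ i dx / y ^ k`, `0 ≤ i < n`, `1 ≤ k < N`,
are a basis of the de Rham cohomology `H¹` of `C_z`. The homology classes are represented by loops outside a disc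
`|x| ≤ ρ` without `a_j`; for `|z| < ρ` the loops on `C_0` and on `C_z` outside this disc are identified by
`(x, y) ↦ (x, y (1 - z / x) ^ (e₀ / N))`, and this is the parallel transport.

We consider `p` such families, different or equal, and the family of the products `C⁽¹⁾_{z_1} × … × C⁽ᵖ⁾_{z_p}` over the
`p`-dimensional base with the coordinates `z_1, …, z_p`. For every number field `K` and every degree `δ`, for all but
`C T ^ (p - c)` of the `p`-tuples of integers `m_l ≤ T` the fibre over the point `s = (1 / m_1, …, 1 / m_p)` has the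
following property: every relation of degree at most `δ` over `K` between the periods of all the `p` curves
`C⁽ˡ⁾_{1 / m_l}` is the value at `s` of a relation over `K[z_1, …, z_p]`, of degree at most `δ`, which holds identically on
the graph of the period map. Hence it is in the ideal of the fibre over `s` of the Zariski closure of the graph.
-/

set_option autoImplicit false

namespace Pool.Agent.Results.MP_5591bc_ag.CyclicCoverProducts

/-- `(x, y)` is a closed path (parametrised by `[0, 1]`, with continuously differentiable coordinates) on the affine curve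
`y ^ N = x ^ e₀ ∏ (x - a j) ^ (e j)`, the fibre `C_0`, outside the disc `|x| ≤ ρ` and away from the points `x = a j`. -/
structure IsClosedPath {n : ℕ} (N e₀ : ℕ) (a : Fin n → ℂ) (e : Fin n → ℕ) (ρ : ℝ) (x y : ℝ → ℂ) : Prop where
  smooth_x : ContDiff ℝ 1 x
  smooth_y : ContDiff ℝ 1 y
  closed_x : x 0 = x 1
  closed_y : y 0 = y 1
  curve : ∀ t ∈ Set.Icc (0 : ℝ) 1, y t ^ N = x t ^ e₀ * ∏ j, (x t - a j) ^ e j
  away : ∀ t ∈ Set.Icc (0 : ℝ) 1, (∀ j, x t ≠ a j) ∧ ρ < ‖x t‖

/-- The `y`-coordinate of the transported path `(x, y (1 - z / x) ^ (e₀ / N))` on the curve `C_z`. -/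
noncomputable def transport (N e₀ : ℕ) (x y : ℝ → ℂ) (z : ℂ) (t : ℝ) : ℂ := y t * (1 - z / x t) ^ ((e₀ : ℂ) / N)

/-- The transported path is on the curve `C_z`. -/
theorem transport_pow {n N e₀ : ℕ} {a : Fin n → ℂ} {e : Fin n → ℕ} {ρ : ℝ} {x y : ℝ → ℂ} (hN : 0 < N)
    (h : IsClosedPath N e₀ a e ρ x y) (hρ : 0 ≤ ρ) {z : ℂ} {t : ℝ} (ht : t ∈ Set.Icc (0 : ℝ) 1) :
    transport N e₀ x y z t ^ N = (x t - z) ^ e₀ * ∏ j, (x t - a j) ^ e j :=
  Pool.Agent.Y921.DB.yz_pow hN ⟨h.smooth_x, h.smooth_y, h.closed_x, h.closed_y, h.curve, h.away⟩ hρ ht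

/-- The period `∮ x ^ i dx / y ^ k` over the transported path on `C_z`. -/
noncomputable def period (N e₀ : ℕ) (x y : ℝ → ℂ) (z : ℂ) (k i : ℕ) : ℂ :=
  ∫ t in (0 : ℝ)..1, x t ^ i / transport N e₀ x y z t ^ k * deriv x t

/-- A family of cyclic covers `C_z : y ^ N = (x - z) ^ e₀ ∏ (x - a j) ^ (e j)`, with `σ` closed paths and the bound `κ` for
the exponents `k` of the forms `x ^ i dx / y ^ k`. -/
structure Family where
  /-- the number of fixed branch points -/
  n : ℕ
  /-- the degree of the covers -/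
  N : ℕ
  /-- the exponent of the moving branch point -/
  e₀ : ℕ
  /-- the fixed branch points -/
  a : Fin n → ℂ
  /-- their exponents -/
  e : Fin n → ℕ
  /-- the forms are `x ^ i dx / y ^ k` with `i < n` and `1 ≤ k ≤ κ` -/
  κ : ℕ
  /-- the number of paths -/
  σ : ℕ
  /-- the radius of the excluded disc -/
  ρ : ℝ
  x : Fin σ → ℝ → ℂ
  y : Fin σ → ℝ → ℂ
  N_pos : 0 < N
  e₀_pos : 0 < e₀
  injective : Function.Injective a
  algebraic : ∀ j, IsAlgebraic ℚ (a j)
  ne_zero : ∀ j, a j ≠ 0
  ρ_pos : 0 < ρ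
  path : ∀ s, IsClosedPath N e₀ a e ρ (x s) (y s)

/-- The indices of the periods of the family. -/
abbrev Family.Index (F : Family) : Type := Fin F.σ × Fin F.κ × Fin F.n

/-- All the periods of the curve `C_z` of the family. -/
noncomputable def Family.periods (F : Family) (z : ℂ) (v : F.Index) : ℂ :=
  period F.N F.e₀ (F.x v.1) (F.y v.1) z (v.2.1 + 1) v.2.2

/-- All the periods of the product of the curves `C⁽ˡ⁾_{z_l}`, `l = 1, …, p`. -/
noncomputable def periods {p : ℕ} (F : Fin p → Family) (z : Fin p → ℂ) (v : Σ l, (F l).Index) : ℂ :=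
  (F v.1).periods (z v.1) v.2

/-- The degree `δ` statement over `K` at the point `s` of affine `p`-space, for the functions `P`: every polynomial `F` of
total degree at most `δ` with coefficients in `K` which vanishes at `P(s)` is the value at `z = s` of a polynomial `G` over
`K[z_1, …, z_p]` of total degree at most `δ` with `G(z, P(z)) = 0` for all `z` in the polydisc of radius `r`. -/
def DegreeStatement (K : Type) [Field K] [Algebra K ℂ] {p : ℕ} {ι : Type} (P : (Fin p → ℂ) → ι → ℂ) (r : ℝ) (δ : ℕ)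
    (s : Fin p → K) : Prop :=
  ∀ F : MvPolynomial ι K, F.totalDegree ≤ δ → MvPolynomial.aeval (P fun l => algebraMap K ℂ (s l)) F = 0 →
    ∃ G : MvPolynomial ι (MvPolynomial (Fin p) K), G.totalDegree ≤ δ ∧ G.map (MvPolynomial.eval s) = F ∧
      ∀ z : Fin p → ℂ, (∀ l, ‖z l‖ < r) →
        G.eval₂ (MvPolynomial.aeval z : MvPolynomial (Fin p) K →ₐ[K] ℂ).toRingHom (P z) = 0

/-- The `p`-tuples of integers `2 ≤ m_l ≤ T` for which the degree `δ` statement at `(1 / m_1, …, 1 / m_p)` fails or this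
point is not in the polydisc of radius `r`. -/
def exceptions (K : Type) [Field K] [Algebra K ℂ] {p : ℕ} (F : Fin p → Family) (r : ℝ) (δ T : ℕ) : Set (Fin p → ℕ) :=
  {m | (∀ l, 2 ≤ m l ∧ m l ≤ T) ∧
    ¬ ((∀ l, 1 / (m l : ℝ) < r) ∧ DegreeStatement K (periods F) r δ fun l => 1 / (m l : K))}

/-- For all but `C T ^ (p - c)` of the `p`-tuples of integers `m_l ≤ T` the degree `δ` statement over the number field `K`
is true for all periods of the product of the `p` curves `C⁽ˡ⁾_{1 / m_l}`. -/
theorem result {p : ℕ} (F : Fin p → Family) (K : Type) [Field K] [NumberField K] [Algebra K ℂ] (δ : ℕ) :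
    ∃ r : ℝ, 0 < r ∧ (∀ l, r ≤ (F l).ρ) ∧ ∃ c C : ℝ, 0 < c ∧ ∀ T : ℕ, 1 ≤ T →
      ((exceptions K F r δ T).ncard : ℝ) ≤ C * (T : ℝ) ^ ((p : ℝ) - c) := by
  classical
  let F' : Pool.Agent.Y921.DB.Fam p :=
    { n := fun l => (F l).n, N := fun l => (F l).N, e₀ := fun l => (F l).e₀, κ := fun l => (F l).κ,
      σ := fun l => (F l).σ, a := fun l => (F l).a, e := fun l => (F l).e, ρ := fun l => (F l).ρ,
      x := fun l => (F l).x, y := fun l => (F l).y, hN := fun l => (F l).N_pos, he := fun l => (F l).e₀_pos,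
      ha := fun l => (F l).injective, halg := fun l => (F l).algebraic, ha0 := fun l => (F l).ne_zero,
      hρ := fun l => (F l).ρ_pos,
      path := fun l s => ⟨((F l).path s).smooth_x, ((F l).path s).smooth_y, ((F l).path s).closed_x,
        ((F l).path s).closed_y, ((F l).path s).curve, ((F l).path s).away⟩ }
  obtain ⟨r, hr, hrρ, c, hc, C, hC⟩ := Pool.Agent.Y921.DB.Fam.count F' K δ
  refine ⟨r, hr, hrρ, c, C, hc, fun T hT => le_trans ?_ (hC T hT)⟩
  rw [← Set.ncard_coe_finset]
  refine Nat.cast_le.2 (Set.ncard_le_ncard (fun m hm => ?_) (Finset.finite_toSet _))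
  obtain ⟨hm1, hm2⟩ := hm
  rw [Finset.mem_coe, Finset.mem_filter]
  refine ⟨Fintype.mem_piFinset.2 fun l => Finset.mem_Icc.2 (hm1 l), fun hh => hm2 ⟨hh.1, ?_⟩⟩
  intro P hP h0
  have h7 : (fun l => algebraMap K ℂ (1 / (m l : K))) = fun l => 1 / (m l : ℂ) := by
    funext l
    simp
  rw [h7] at h0
  obtain ⟨G, hG1, hG2, hG3⟩ := hh.2 P hP h0
  exact ⟨G, hG1, hG3, hG2⟩

end Pool.Agent.Results.MP_5591bc_ag.CyclicCoverProducts
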