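import Pool.Agent.Y124.FamK

/-!
# Periods of the fibres of `n` families of elliptic curves over the points of all number fields of bounded degree

Let `a_j`, `b_j` be polynomials (`j = 1, …, n`) such that `a_j³ / b_j²` is not constant, and consider the families of
elliptic curves `y² = x³ + a_j(s) x + b_j(s)` and their product over the `n`-dimensional space of the `(s_1, …, s_n)`.
-/

set_option autoImplicit false

open NumberField

namespace Pool.Agent.Results.MP_5591bc_ag.EllipticFamilies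

/-- For `v² = r - p` and `(q - p) / (r - p)` not in `[1, ∞)` this is the integral of `x ^ k dx / y` over the cycle of
`y² = (x - p)(x - q)(x - r)` around the segment from `p` to `q` (substitute `x = p + (q - p) sin² θ`). -/
noncomputable def per (p q v : ℂ) (k : ℕ) : ℂ :=
  4 / v * ∫ θ in (0 : ℝ)..(Real.pi / 2), (p + (q - p) * (Real.sin θ : ℂ) ^ 2) ^ k *
    (1 - (q - p) / v ^ 2 * (Real.sin θ : ℂ) ^ 2) ^ (-(1 / 2) : ℂ)

/-- For the curve `y² = (x - e₀)(x - e₁)(x - e₂)` and a square root `v` of `e₁ - e₀`, these are the two periods of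
`dx / y` and one period of `x dx / y`: the periods over the cycles around the segments from `e₀` to `e₂` and from `e₁` to
`e₂`, a basis of the homology. -/
noncomputable def periods (e : Fin 3 → ℂ) (v : ℂ) (i : Fin 3) : ℂ :=
  ![per (e 0) (e 2) v 0, per (e 1) (e 2) (-Complex.I * v) 0, per (e 0) (e 2) v 1] i

/-- The elements of the number field `F` with image in `S` which are quotients of two integers of `F` all of whose
conjugates have absolute value at most `T`. -/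
def Points (F : Type) [Field F] [NumberField F] (ι : F →+* ℂ) (S : Set ℂ) (T : ℝ) : Set F :=
  {x | ι x ∈ S ∧ ∃ a b : 𝓞 F, b ≠ 0 ∧ (∀ φ : F →+* ℂ, ‖φ a‖ ≤ T ∧ ‖φ b‖ ≤ T) ∧ x = a / b}

/-- The `n`-tuples `t` of points of `F` for which there are numberings of the roots `e_{j0}, e_{j1}, e_{j2}` of
`x³ + a_j(t_j) x + b_j(t_j)` with `(e_{j2} - e_{j0}) / (e_{j1} - e_{j0}) ∈ L`, square roots `v_j` of `e_{j1} - e_{j0}`, and
a polynomial `P` of degree at most `d` in each of `3n` variables, with coefficients of the form `∑ ξ_i ι(c_i)`, where the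
`c_i` are integers of `F` all of whose conjugates have absolute value at most `T ^ A`, such that the value of `P` at the
`3n` periods is at most `T ^ (-B)` times the absolute value of some nonzero coefficient of `P`. -/
def Exceptional {n : ℕ} (a b : Fin n → Polynomial ℂ) (d : ℕ) {g : ℕ} (F : Type) [Field F] [NumberField F] (ι : F →+* ℂ)
    (ξ : Fin g → ℂ) (S L : Set ℂ) (A B T : ℝ) : Set (Fin n → F) :=
  {t | (∀ j, t j ∈ Points F ι S T) ∧ ∃ (e : Fin n → Fin 3 → ℂ) (v : Fin n → ℂ),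
    (∀ j, (∀ x : ℂ, x ^ 3 + (a j).eval (ι (t j)) * x + (b j).eval (ι (t j)) = (x - e j 0) * (x - e j 1) * (x - e j 2)) ∧
      v j ^ 2 = e j 1 - e j 0 ∧ (e j 2 - e j 0) / (e j 1 - e j 0) ∈ L) ∧
    ∃ P : MvPolynomial (Fin n × Fin 3) ℂ, (∀ x, P.degreeOf x ≤ d) ∧
    (∀ s, ∃ c : Fin g → 𝓞 F, (∀ i (φ : F →+* ℂ), ‖φ (c i)‖ ≤ T ^ A) ∧ P.coeff s = ∑ i, ξ i * ι (c i)) ∧
    ∃ s₀, P.coeff s₀ ≠ 0 ∧
      ‖MvPolynomial.aeval (fun x : Fin n × Fin 3 => periods (e x.1) (v x.1) x.2) P‖ ≤ T ^ (-B) * ‖P.coeff s₀‖}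

theorem per_zero (p q v : ℂ) : per p q v 0 = 4 / v * Y124.ellI (-(1 / 2)) ((q - p) / v ^ 2) := by
  rw [per, Y124.ellI]
  congr 1
  refine intervalIntegral.integral_congr fun θ _ => ?_
  simp only [pow_zero, one_mul]

theorem per_one (p q v : ℂ) (hv : v ≠ 0) (hD : 1 - (q - p) / v ^ 2 ∈ Complex.slitPlane) : per p q v 1 =
    4 / v * (p * Y124.ellI (-(1 / 2)) ((q - p) / v ^ 2) + v ^ 2 * (Y124.ellI (-(1 / 2)) ((q - p) / v ^ 2) -
      Y124.ellI (1 / 2) ((q - p) / v ^ 2))) := by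
  set m := (q - p) / v ^ 2 with hm
  have hqp : q - p = m * v ^ 2 := by
    rw [hm, div_mul_cancel₀ _ (pow_ne_zero _ hv)]
  have hz : ∀ θ : ℝ, 1 - m * (Real.sin θ : ℂ) ^ 2 ∈ Complex.slitPlane := fun θ => Y124.one_sub_mem hD θ
  have hci : ∀ s : ℂ, IntervalIntegrable (fun θ : ℝ => (1 - m * (Real.sin θ : ℂ) ^ 2) ^ s) MeasureTheory.volume 0
      (Real.pi / 2) := by
    intro s
    apply Continuous.intervalIntegrable
    have h1 : Continuous fun θ : ℝ => 1 - m * (Real.sin θ : ℂ) ^ 2 := by fun_prop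
    exact Continuous.cpow h1 continuous_const fun θ => hz θ
  rw [per, Y124.ellI, Y124.ellI]
  congr 1
  rw [← intervalIntegral.integral_sub (hci _) (hci _), ← intervalIntegral.integral_const_mul,
    ← intervalIntegral.integral_const_mul, ← intervalIntegral.integral_add ((hci _).const_mul _)
    (((hci _).sub (hci _)).const_mul _)]
  refine intervalIntegral.integral_congr fun θ _ => ?_
  simp only [pow_one]
  set z := 1 - m * (Real.sin θ : ℂ) ^ 2 with hzz
  have hz0 : z ≠ 0 := Complex.slitPlane_ne_zero (hz θ)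
  have h2 : z ^ (1 / 2 : ℂ) = z ^ (-(1 / 2) : ℂ) * z := by
    have h3 := Complex.cpow_add (-(1 / 2) : ℂ) 1 hz0
    rw [Complex.cpow_one] at h3
    rw [← h3]
    congr 1
    norm_num
  rw [h2, hqp]
  have h4 : m * v ^ 2 * (Real.sin θ : ℂ) ^ 2 = v ^ 2 * (1 - z) := by
    rw [hzz]
    ring
  rw [h4]
  ring

theorem periods_eq (e : Fin 3 → ℂ) (v : ℂ) (h01 : e 0 ≠ e 1) (hs : e 0 + e 1 + e 2 = 0) (hv : v ^ 2 = e 1 - e 0)
    (hD : (e 2 - e 0) / (e 1 - e 0) ∈ Y124.Dom) (i : Fin 3) :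
    Y124.pf ((e 2 - e 0) / (e 1 - e 0)) v i = periods e v i := by
  have hne : e 1 - e 0 ≠ 0 := sub_ne_zero.2 (Ne.symm h01)
  have hv0 : v ≠ 0 := by
    intro h0
    rw [h0] at hv
    exact hne (by rw [← hv]; ring)
  have hI2 : (-Complex.I * v) ^ 2 = -v ^ 2 := by
    rw [mul_pow, neg_sq, Complex.I_sq]
    ring
  have hl2 : (e 2 - e 1) / (-Complex.I * v) ^ 2 = 1 - (e 2 - e 0) / (e 1 - e 0) := by
    rw [hI2, hv]
    field_simp
    ring
  fin_cases i
  · change 4 / v * Y124.ellI (-(1 / 2)) ((e 2 - e 0) / (e 1 - e 0)) = per (e 0) (e 2) v 0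
    rw [per_zero, hv]
  · change 4 * Complex.I / v * Y124.ellI (-(1 / 2)) (1 - (e 2 - e 0) / (e 1 - e 0)) = per (e 1) (e 2) (-Complex.I * v) 0
    rw [per_zero, hl2]
    congr 1
    field_simp
    rw [Complex.I_sq]
  · change 4 / v * (-(v ^ 2 * (1 + (e 2 - e 0) / (e 1 - e 0)) / 3) * Y124.ellI (-(1 / 2)) ((e 2 - e 0) / (e 1 - e 0)) +
      v ^ 2 * (Y124.ellI (-(1 / 2)) ((e 2 - e 0) / (e 1 - e 0)) - Y124.ellI (1 / 2) ((e 2 - e 0) / (e 1 - e 0)))) =
      per (e 0) (e 2) v 1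
    rw [per_one _ _ _ hv0 (by rw [hv]; exact hD.2), hv]
    congr 2
    congr 1
    field_simp
    linear_combination (-1 : ℂ) * hs

/-- Let `a_j`, `b_j` be `n` pairs of polynomials with `b_j ≠ 0` and `a_j³` not a constant multiple of `b_j²`, let `S` be a
compact set on which no `4 a_j³ + 27 b_j²` vanishes, and let `L` be a compact subset of `ℂ` without
`(-∞, 0] ∪ [1, ∞)`. For all `m`, `g`, `d`, `A` and `ε > 0` there are `B`, `C`, `T₀` such that for every number field `F`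
of degree at most `m`, every embedding of `F` in `ℂ`, all complex numbers `ξ_1, …, ξ_g` and all `T ≥ T₀` the number of
exceptional `n`-tuples is at most `C T^ε N^(n - 1)`, where `N` is the number of points. -/
theorem result (m n g d : ℕ) (a b : Fin n → Polynomial ℂ) (hb : ∀ j, b j ≠ 0)
    (hab : ∀ j, ∀ c : ℂ, a j ^ 3 ≠ Polynomial.C c * b j ^ 2) (S : Set ℂ) (hS : IsCompact S)
    (hS' : ∀ j, ∀ s ∈ S, 4 * (a j).eval s ^ 3 + 27 * (b j).eval s ^ 2 ≠ 0) (L : Set ℂ) (hL : IsCompact L)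
    (hL' : ∀ l ∈ L, l ∈ Complex.slitPlane ∧ 1 - l ∈ Complex.slitPlane) (A ε : ℝ) (hε : 0 < ε) :
    ∃ B C T₀ : ℝ, ∀ (F : Type) [Field F] [NumberField F], Module.finrank ℚ F ≤ m → ∀ (ι : F →+* ℂ) (ξ : Fin g → ℂ)
      (T : ℝ), T₀ ≤ T → (Exceptional a b d F ι ξ S L A B T).Finite ∧
        ((Exceptional a b d F ι ξ S L A B T).ncard : ℝ) ≤ C * T ^ ε * ((Points F ι S T).ncard : ℝ) ^ (n - 1) := by
  classical
  have hone := fun j => Y124.KM_oneV (a j) (b j) (hb j) (hab j) S L hS hL (fun l hl => hL' l hl) (hS' j)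
  choose hone1 M hM using hone
  obtain ⟨B, C, T₀, hC, hT₀, H⟩ := Y124.nfW m n (fun x : Y124.MC => x.1) (fun j => Y124.KM (a j) (b j) S L) S
    (fun j x hx => hx.1) (∑ j, M j) (fun j s => ⟨(hM j s).1, (hM j s).2.trans
      (Finset.single_le_sum (f := M) (fun _ _ => Nat.zero_le _) (Finset.mem_univ j))⟩)
    (fun j (x : Y124.MC) y => Y124.pf (Y124.lam x) x.2.2 y) (fun g j => hone1 j g) (Fin g) d A ε hε
  refine ⟨B, C, T₀, fun F _ _ hF ι ξ T hT => ?_⟩
  have hT0 : 0 ≤ T := by linarith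
  have hP : Points F ι S T = {x : F | Y120.HtLe F T x ∧ ι x ∈ S} := by
    ext x
    constructor
    · rintro ⟨h1, a, b, hb, hab, hx⟩
      exact ⟨⟨a, b, hb, Y120.house_le F hT0 fun φ => (hab φ).1, Y120.house_le F hT0 fun φ => (hab φ).2, hx⟩, h1⟩
    · rintro ⟨⟨a, b, hb, ha, hb', hx⟩, h1⟩
      exact ⟨h1, a, b, hb, fun φ => ⟨(Y120.house_ge F _ φ).trans ha, (Y120.house_ge F _ φ).trans hb'⟩, hx⟩
  rw [hP]
  refine H F hF ι ξ T hT _ ?_
  rintro t ⟨ht, e, v, hev, P, hPd, hPc, s₀, hs₀, hs⟩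
  rw [hP] at ht
  have hKM : ∀ j, ((ι (t j), e j, v j) : Y124.MC) ∈ Y124.KM (a j) (b j) S L := fun j =>
    ⟨(ht j).2, ⟨(hev j).1, (hev j).2.1⟩, (hev j).2.2⟩
  refine ⟨fun j => (ι (t j), e j, v j), fun j => ⟨hKM j, rfl, (ht j).1⟩, ?_⟩
  refine Y124.relK_of_poly' F ι ξ _ _ _ _ P hPd hPc s₀ hs₀ ?_
  refine le_trans (le_of_eq ?_) hs
  congr 1
  congr 1
  congr 1
  funext x
  have h1 := Y124.Cv_sym (hKM x.1).2.1
  have h2 := hS' x.1 _ (ht x.1).2
  rw [Y124.Cv_disc (hKM x.1).2.1] at h2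
  refine periods_eq (e x.1) (v x.1) ?_ h1.1 (hev x.1).2.1 (hL' _ (hev x.1).2.2) x.2
  intro h3
  apply h2
  change -((e x.1 0 - e x.1 1) ^ 2 * (e x.1 0 - e x.1 2) ^ 2 * (e x.1 1 - e x.1 2) ^ 2) = 0
  rw [h3]
  ring

end Pool.Agent.Results.MP_5591bc_ag.EllipticFamilies
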