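import Pool.Agent.Y327.HP.Strict

/-!
# MP_5591bc_ag: families of hyperelliptic curves in which no algebraic fibre has dense periods

For a configuration `a` of `2g + 1` distinct points let `C_a : y² = ∏ (x - a_i)` and
`C_a^{(s)} : s y² = ∏ (x - a_i)`. For every set `T` of configurations (for instance a point, or the
whole configuration space) the products `C_a × C_a^{(s)}` form a family over `S = T × 𝔾_m`. At every
algebraic point of `S`, and for every local frame, the closure of the period point is strictly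
smaller than the fibre of `B_P`.
-/

set_option autoImplicit false

namespace Pool.Agent.Results.MP_5591bc_ag.HyperellipticTwists

open Pool.Agent.Y327.HP

theorem result (g : ℕ) (hg : 1 ≤ g) (T : Set (Conf g)) (hT : ∀ a ∈ T, Function.Injective a) :
    (∀ a ∈ T, ∀ s s' : ℂ, s ≠ 0 → s' ≠ 0 → HodgeIso a a s s') ∧
    (∀ a ∈ T, (∀ i, IsAlgebraic ℚ (a i)) → ∀ s₀ : ℂ, s₀ ≠ 0 → IsAlgebraic ℚ s₀ →
      (∀ (U : Set (Conf g × ℂ)) (Γ : Conf g × ℂ → Row g → ℝ → Pt),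
        IsLocalFrame T (GLn g) U Γ → (a, s₀) ∈ U → ∀ G, graph U Γ ⊆ G →
          ptClosure (GLn g) (perMat (Γ (a, s₀))) ⊂ {M | ((a, s₀), M) ∈ BVar T (GLn g) G}) ∧
      (∀ (ι : Type) (U : Set (Conf g × ℂ)) (Γ : Conf g × ℂ → ι → ℝ → Pt),
        IsLocalFrame T Set.univ U Γ → (a, s₀) ∈ U → ∀ G, graph U Γ ⊆ G →
          ptClosure Set.univ (perMat (Γ (a, s₀))) ⊂ {M | ((a, s₀), M) ∈ BVar T Set.univ G})) ∧
    (∀ a ∈ T, ∀ s₀ : ℂ, s₀ ≠ 0 →
      (∃ γ : ℕ → ℝ → Pt, Generates a s₀ γ) ∧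
      (∀ γ : Row g → ℝ → Pt, Generates a s₀ γ → perMat γ ∈ GLn g →
        ∃ (U : Set (Conf g × ℂ)) (Γ : Conf g × ℂ → Row g → ℝ → Pt), (a, s₀) ∈ U ∧
          Γ (a, s₀) = γ ∧ IsLocalFrame T (GLn g) U Γ) ∧
      (∀ (ι : Type) (γ : ι → ℝ → Pt), Generates a s₀ γ →
        ∃ (U : Set (Conf g × ℂ)) (Γ : Conf g × ℂ → ι → ℝ → Pt), (a, s₀) ∈ U ∧
          Γ (a, s₀) = γ ∧ IsLocalFrame T Set.univ U Γ)) := by
  refine ⟨fun a _ s s' hs hs' => hodgeIso_all a hs hs', ?_, ?_⟩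
  · intro a ha haa s₀ h0 hsa
    exact ⟨fun U Γ hΓ hU G hG => strict_frames hg GLn_stable (hT a ha) haa h0 hsa hΓ hU hG,
      fun ι U Γ hΓ hU G hG => strict_frames hg (fun _ _ _ _ => Set.mem_univ _) (hT a ha) haa h0
        hsa hΓ hU hG⟩
  · intro a ha s₀ h0
    exact ⟨exists_generates_nat a h0, fun γ h hM => exists_frame_GL (hT a ha) ha h0 h hM,
      fun ι γ h => exists_frame_univ (hT a ha) ha h0 h⟩

end Pool.Agent.Results.MP_5591bc_ag.HyperellipticTwists
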